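import Pool.Agent.MP_826def_gt.PN.Tower
import Pool.Agent.MP_826def_gt.PP.Spec
import Pool.Agent.MP_826def_gt.BG.Fm

/-! From the Gysin tower to the absence of equivariant maps, at every prime. -/

namespace Pool.Agent.MP_826def_gt.PN

open Set Topology Pool.Agent.MP_826def_gt.MU Pool.Agent.MP_826def_gt.BN

noncomputable section

variable [Fact Core]

/-- The tensor powers of a line bundle with the power map on vectors. -/
theorem exists_pw (A : Api) {a : ℕ → ℕ → UU} (ha : IsFGL a) {K : Type} [TopologicalSpace K]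
    [CompactSpace K] [T2Space K] (L : Bun K) (hL : L.Rk 1) (n : ℕ) :
    ∃ (P : Bun K) (t : C(K × L.W, P.W)), P.Rk 1 ∧ eu P = PP.nm (cf (toU K) a) (eu L) n ∧
      (∀ x u, L.p x u = u → P.p x (t (x, u)) = t (x, u) ∧ (u ≠ 0 → t (x, u) ≠ 0)) ∧
      ∀ x (c : ℂ) u, t (x, c • u) = c ^ n • t (x, u) := by
  have h1 : (Bun.triv K FD.C).Rk 1 := fun x =>
    (A.bun.rk_triv K FD.C x).trans (Module.finrank_self ℂ)
  induction n with
  | zero =>
    refine ⟨Bun.triv K FD.C, ContinuousMap.const _ (1 : ℂ), h1, ?_,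
      fun _ _ _ => ⟨rfl, fun _ => one_ne_zero (α := ℂ)⟩, fun _ _ _ => by simp⟩
    have := A.eul.nz (fun _ : Unit => Bun.triv K FD.C) (fun _ => ContinuousMap.const _ (1 : ℂ))
      (fun _ _ => rfl) fun _ => ⟨(), one_ne_zero (α := ℂ)⟩
    rwa [Fintype.prod_unique] at this
  | succ n ih =>
    obtain ⟨P, t, p1, p2, p3, p4⟩ := ih
    have h2 : (L.tens P).Rk 1 := A.bun.rk_hom _ _ 1 1 (A.bun.rk_hom _ _ 1 1 p1 h1) hL
    obtain ⟨β, hβ⟩ := A.bun.tens_tens L P
    refine ⟨L.tens P, ⟨fun z => β z.1 z.2 (t z), ((β.continuous.comp continuous_fst).clm_apply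
      continuous_snd).clm_apply t.continuous⟩, h2, ?_, fun x u hu => ?_, fun x c u => ?_⟩
    · rw [ha.tens _ _ _ hL p1 h2 ⟨β, hβ⟩, p2]
      rfl
    · have := hβ x u _ hu (p3 x u hu).1
      exact ⟨this.1, fun h e => (this.2 e).elim h ((p3 x u hu).2 h)⟩
    · show β x (c • u) (t (x, c • u)) = c ^ (n + 1) • β x u (t (x, u))
      rw [p4, map_smul, map_smul, smul_apply, smul_smul, pow_succ]

theorem exists_dat (A : Api) {a : ℕ → ℕ → UU} (ha : IsFGL a) (p : ℕ) {r : ℕ} (N : ℕ) (i₀ : Fin r) :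
    ∃ D : Dat p N i₀, ∀ k : Fin r, eu (D.P k) = PP.nm (cf (toU _) a) (xs r N N k) p := by
  choose P t p1 p2 p3 p4 using fun k : ℕ => exists_pw A ha ((taut N N).pull (ev (ix i₀ k)))
    (fun x => A.bun.rk_taut N N _) p
  let s : ∀ k, C(Fin r → Sp N, (P k).W) := fun k => (t k).comp ⟨fun u => (lns u, (u (ix i₀ k)).1),
    lns.continuous.prodMk (continuous_subtype_val.comp (continuous_apply _))⟩
  have s1 : ∀ k u, (P k).p (lns u) (s k u) = s k u ∧ s k u ≠ 0 := fun k u =>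
    (p3 k (lns u) _ (mv_pj_self (sp_ne _))).imp_right fun h => h (sp_ne _)
  have s2 : ∀ k u, ((‖s k u‖ : ℝ) : ℂ) ≠ 0 := fun k u =>
    Complex.ofReal_ne_zero.2 (norm_ne_zero_iff.2 (s1 k u).2)
  refine ⟨⟨P, fun k => ⟨fun u => ((‖s k u‖ : ℝ) : ℂ)⁻¹ • s k u,
    ((Complex.continuous_ofReal.comp (s k).continuous.norm).inv₀ (s2 k)).smul (s k).continuous⟩,
    p1, fun k u => ⟨?_, ?_⟩, fun k u v c e e' => ?_⟩, fun k => ?_⟩
  · show (P k).p (lns u) ((_ : ℂ) • s k u) = (_ : ℂ) • s k u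
    rw [map_smul, (s1 k u).1]
  · rw [ContinuousMap.coe_mk, norm_smul, norm_inv, Complex.norm_of_nonneg (norm_nonneg _),
      inv_mul_cancel₀ (norm_ne_zero_iff.2 (s1 k u).2)]
  · have h : s k v = c ^ p • s k u := by
      show t k (lns v, (v (ix i₀ k)).1) = c ^ p • t k (lns u, (u (ix i₀ k)).1)
      rw [← e, e', p4]
    rw [ContinuousMap.coe_mk, h, norm_smul, norm_pow, norm_of_smul e', one_pow, one_mul, smul_comm]
  · show eu (P k) = _
    rw [p2, ix_coe]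
    rfl

theorem vanish (A : Api) {a : ℕ → ℕ → UU} (ha : IsFGL a) {p r N : ℕ} {i₀ : Fin r} (D : Dat p N i₀)
    (hp : p ≠ 0) {m : Fin r → ℕ} (hS : PP.Sec p r i₀ N m) :
    pullR (tow D.P r).p (∏ i, (xs r N N i₀ - xs r N N i) ^ m i) = 0 := by
  obtain ⟨σ, h1, h2⟩ := sections D hp hS
  have hL : ∀ i, (Lt D i).Rk 1 := fun i x => A.bun.rk_taut N N _
  have hH : ∀ i, ((Lt D i).hom (Lt D i₀)).Rk 1 := fun i => A.bun.rk_hom _ _ 1 1 (hL i) (hL i₀)
  have h3 := A.eul.nz (fun a : (i : Fin r) × Fin (m i) => (Lt D a.1).hom (Lt D i₀)) σ h1 h2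
  rw [Fintype.prod_sigma] at h3
  simp only [Finset.prod_const, Finset.card_univ, Fintype.card_fin] at h3
  rw [map_prod]
  refine zero_dvd_iff.1 (h3 ▸ Finset.prod_dvd_prod_of_dvd _ _ fun i _ => ?_)
  rw [map_pow, map_sub]
  refine pow_dvd_pow_of_dvd ?_ _
  have e : ∀ i, pullR (tow D.P r).p (xs r N N i) = eu (Lt D i) := fun i => A.eul.pull _ _
  rw [e, e, ha.tens _ _ _ (hH i) (hL i) (hL i₀) (A.bun.tens_hom _ _ (hL i))]
  refine ((BG.sFm _ _ _ _).2.2.2 (fun k => ?_) (fun k l => ?_) (ha.nil _ (hH i))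
    (ha.nil _ (hL i))).2.2.2.1
  · rw [cf, ha.fg.unit]
    split_ifs
    exacts [map_one _, map_zero _]
  · rw [cf, cf, ha.fg.symm]

theorem noSec (A : Api) (hH : PP.S_H) (hR : PP.S_Reg) (hF : S_FGL) (hG : S_Gys) (hC : S_CPr) :
    PP.S_NoSec := by
  intro p hp r i₀ i₁ hi
  obtain ⟨c, hc⟩ := hH p hp r i₀ i₁ hi
  refine ⟨c, fun L j' s h1 h2 h3 hS => ?_⟩
  obtain ⟨a, ha⟩ := hF
  obtain ⟨γ, hγ⟩ := hG
  obtain ⟨N, hN⟩ : ∃ N, N = p ^ L * j' + s + 1 := ⟨_, rfl⟩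
  specialize hc L j' s h1 h2 h3
  rw [← hN] at hc hS
  obtain ⟨c1, c2, c3⟩ := hC r N N le_rfl
  obtain ⟨D, e1⟩ := exists_dat A ha p N i₀
  let Y := tow D.P
  let π : ∀ k, Mod (Y k).p →ₗ[h (Bs r N)] Mod (Y (k + 1)).p := fun k =>
    { toFun := Hpull (sphP ((D.P k).pull (Y k).p))
      map_add' := map_add _
      map_smul' := fun b y => (A.act.pull (Y k).p _ b).2 y }
  let γ' : ∀ k, Mod (Y (k + 1)).p →ₗ[h (Bs r N)] Mod (Y k).p := fun k =>
    { toFun := γ ((D.P k).pull (Y k).p) (sphP _) (sphT _)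
      map_add' := map_add _
      map_smul' := fun b y => hγ.lin _ _ _ (Y k).p (isSph _) b y }
  let η : h (Bs r N) →ₗ[h (Bs r N)] Mod (Y 0).p :=
    { toFun := fun b => ((b, 0) : H (Bs r N))
      map_add' := fun _ _ => Prod.ext rfl (add_zero _).symm
      map_smul' := fun b y => Prod.ext rfl (map_zero (act _ b)).symm }
  let ρ : Mod (Y 0).p →ₗ[h (Bs r N)] h (Bs r N) :=
    { toFun := fun y => (y : H (Bs r N)).1
      map_add' := fun _ _ => rfl
      map_smul' := fun _ _ => rfl }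
  refine hc UU (h (Bs r N)) (Mod (toPt Unit)) a (toU _) (xs r N N) (fun k => Mod (Y k).p)
    (Hpull (toPt (Bs r N))) η ρ π γ' ha.fg (hR a ha p hp (r + 1)).1 (hR a ha p hp r).2.1
    (hR a ha p hp r).2.2 c1 c2 c3 (fun u n => ?_) (fun _ => rfl) (fun k => ?_) ?_
  · exact ((A.act.pull (toPt Unit) (toPt (Bs r N)) u).2 n).trans
      (congrArg (fun φ : AddMonoid.End (H (Bs r N)) => φ (Hpull (toPt (Bs r N)) n))
        (A.act.base (ContinuousMap.id (Bs r N)) (toPt (Bs r N)) u).2.symm)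
  · have e2 : (fun y : Mod (Y k).p => PP.nm (cf (toU _) a) (xs r N N k) p • y) =
        Heul ((D.P k).pull (Y k).p) :=
      funext fun y => by
        rw [← e1]
        exact ((A.eul.act (Y k).p _).2 y).symm
    rw [e2]
    exact (hγ.exact _ _ _ (isSph _)).2
  · have e := vanish A ha D hp.ne_zero hS
    generalize (∏ i, (xs r N N i₀ - xs r N N i) ^ ex i₀ i₁ (p ^ L * j') i) = z at e ⊢
    rw [← mul_one z, ← smul_eq_mul, map_smul, map_smul, Mod.smul_def]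
    have e' := (A.act.base (ContinuousMap.id (Y r).T) (Y r).p z).2
    rw [e, map_zero] at e'
    exact congrArg (fun φ : AddMonoid.End (H (Y r).T) => φ _) e'.symm

end

end Pool.Agent.MP_826def_gt.PN
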