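import Pool.Agent.MP_826def_gt.H44.Geo
import Pool.Agent.MP_826def_gt.PP.Alg

/-! From a cover with homotopy sections of the diagonal to equivariant maps on products of
spheres, for the least prime divisor of the order of the group. -/

namespace Pool.Agent.MP_826def_gt.PN

open Set Filter Topology Pool.Agent.MP_826def_gt.H44 Pool.Agent.MP_826def_gt.MU

variable {G : Type} [Group G] [Fintype G] {τ : G} {p : ℕ}

theorem dvd_of_fix (hp : p.Prime) (hm : p = (Fintype.card G).minFac) (ho : orderOf τ = p) {z : G}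
    {a b : ℤ} (h : τ ^ a * z * τ ^ b = z) : (p : ℤ) ∣ a + b := by
  have := Fact.mk hp
  have zp : ∀ i j : ℤ, τ ^ i = τ ^ j ↔ (i : ZMod p) = j := fun i j => by
    rw [zpow_eq_zpow_iff_modEq, ho, ZMod.intCast_eq_intCast_iff]
  have h1 : z⁻¹ * τ ^ a * z = τ ^ (-b) := by
    rw [zpow_neg, mul_assoc, inv_mul_eq_iff_eq_mul, eq_mul_inv_iff_mul_eq, h]
  have cj : ∀ (x : G) (i : ℤ), (z⁻¹ * x * z) ^ i = z⁻¹ * x ^ i * z := fun x i => by
    simpa using conj_zpow (i := i) (a := z⁻¹) (b := x)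
  rw [← ZMod.intCast_zmod_eq_zero_iff_dvd, Int.cast_add]
  by_cases ha : (a : ZMod p) = 0
  · have h2 : τ ^ a = τ ^ (0 : ℤ) := (zp _ _).2 (by simpa using ha)
    rw [h2, zpow_zero, mul_one, inv_mul_cancel, ← zpow_zero τ, zp] at h1
    push_cast at h1
    linear_combination ha + h1
  obtain ⟨c, hc⟩ := ZMod.intCast_surjective (a : ZMod p)⁻¹
  have h2 : (a : ZMod p) * c = 1 := hc ▸ mul_inv_cancel₀ ha
  have h3 : z⁻¹ * τ * z = τ ^ (-b * c) := by
    have : τ ^ (a * c) = τ ^ (1 : ℤ) := (zp _ _).2 (by simpa using h2)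
    rw [zpow_mul, ← h1, cj, ← zpow_mul, this, zpow_one]
  have h4 : ∀ n : ℕ, (z ^ n)⁻¹ * τ * z ^ n = τ ^ ((-b * c) ^ n) := fun n => by
    induction n with
    | zero => simp
    | succ n ih =>
      rw [pow_succ' (-b * c) n, zpow_mul, ← h3, cj, ← ih]
      group
  have h5 := h4 (Fintype.card G)
  rw [pow_card_eq_one, inv_one, one_mul, mul_one] at h5
  have h6 : ((-b * c : ℤ) : ZMod p) ^ Fintype.card G = 1 := by
    have := (zp 1 _).1 ((zpow_one τ).trans h5)
    rw [Int.cast_pow, Int.cast_one] at this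
    exact this.symm
  have h7 : ((-b * c : ℤ) : ZMod p) ≠ 0 := fun e => by
    rw [e, zero_pow Fintype.card_ne_zero] at h6
    exact zero_ne_one h6
  have h8 : (Fintype.card G).Coprime (p - 1) :=
    Nat.coprime_of_lt_minFac (by have := hp.two_le; omega) (by have := hp.two_le; omega)
  have h9 := (pow_eq_one_iff_of_coprime h8).1 ⟨h6, ZMod.pow_card_sub_one_eq_one h7⟩
  push_cast at h9
  linear_combination (-(a : ZMod p)) * h9 - (b : ZMod p) * h2

/-- A function on the group that is multiplied by `ζ` under left and right multiplication by `τ`. -/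
theorem exists_sign (hp : p.Prime) (hm : p = (Fintype.card G).minFac) (ho : orderOf τ = p) {ζ : ℂ}
    (hζ : IsPrimitiveRoot ζ p) : ∃ ψ : G → ℂ, (∀ y, ψ y ^ p = 1) ∧
      ∀ (a b : ℤ) y, ψ (τ ^ a * y * τ ^ b) = ζ ^ (a + b) * ψ y := by
  let R : Setoid G := ⟨fun z y => ∃ a b : ℤ, τ ^ a * z * τ ^ b = y, fun y => ⟨0, 0, by simp⟩,
    fun ⟨a, b, h⟩ => ⟨-a, -b, by rw [← h]; group⟩,
    fun ⟨a, b, h⟩ ⟨c, d, h'⟩ => ⟨c + a, b + d, by rw [← h', ← h]; group⟩⟩
  choose α β h using fun y => Quotient.mk_out (s := R) y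
  have z0 : ζ ≠ 0 := hζ.ne_zero hp.ne_zero
  refine ⟨fun y => ζ ^ (α y + β y), fun y => ?_, fun a b y => ?_⟩
  · rw [← zpow_natCast, ← zpow_mul, mul_comm, zpow_mul, zpow_natCast, hζ.pow_eq_one, one_zpow]
  · have e : Quotient.mk R (τ ^ a * y * τ ^ b) = Quotient.mk R y :=
      (Quotient.sound (s := R) ⟨a, b, rfl⟩).symm
    have h1 := h (τ ^ a * y * τ ^ b)
    have h2 := h y
    rw [e] at h1
    generalize (Quotient.mk R y).out = z at h1 h2
    have h3 : τ ^ (α (τ ^ a * y * τ ^ b) - (a + α y)) * z * τ ^ (β (τ ^ a * y * τ ^ b) - (β y + b)) =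
        z := by
      have h4 : τ ^ (a + α y) * z * τ ^ (β y + b) = τ ^ a * y * τ ^ b := by
        conv_rhs => rw [← h2]
        group
      replace h1 := h1.trans h4.symm
      generalize α (τ ^ a * y * τ ^ b) = s at h1 ⊢
      generalize β (τ ^ a * y * τ ^ b) = t at h1 ⊢
      calc _ = τ ^ (-(a + α y)) * (τ ^ s * z * τ ^ t) * τ ^ (-(β y + b)) := by group
        _ = z := by rw [h1]; group
    have h5 := (hζ.zpow_eq_one_iff_dvd _).2 (dvd_of_fix hp hm ho h3)
    beta_reduce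
    rw [← zpow_add₀ z0, ← mul_one (ζ ^ (a + b + _)), ← h5, ← zpow_add₀ z0]
    congr 1
    ring

theorem tie {x α β : ℂ} (hp : p ≠ 0) (ha : α ^ p = 1) (hb : β ^ p = 1) (hn : α ≠ β)
    (e : (x * α).re = (x * β).re) : (x ^ p).im = 0 := by
  have u : ∀ {α : ℂ}, α ^ p = 1 → α * (starRingEnd ℂ) α = 1 := fun {α} h => by
    rw [Complex.mul_conj, Complex.normSq_eq_norm_sq, Complex.norm_eq_one_of_pow_eq_one h hp]
    simp
  have h1 := (Complex.add_conj (x * α)).trans (e ▸ (Complex.add_conj (x * β)).symm)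
  rw [map_mul, map_mul] at h1
  have h2 : (starRingEnd ℂ) x = x * (α * β) := mul_left_cancel₀ (sub_ne_zero.2 hn) (by
    linear_combination (-(α * β)) * h1 + (starRingEnd ℂ) x * β * u ha -
      (starRingEnd ℂ) x * α * u hb)
  rw [← Complex.conj_eq_iff_im, map_pow, h2, mul_pow, mul_pow, ha, hb, mul_one, mul_one]

/-- An equivariant map from the sphere to the join. -/
theorem exists_map (hp : p ≠ 0) (H : Subgroup G) (ψ : G → ℂ) (h1 : ∀ y, ψ y ^ p = 1)
    (h2 : ∀ g ∈ H, ∀ h ∈ H, ψ g = ψ h → g = h) {N k : ℕ} (hN : 2 * N ≤ k + 1) :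
    ∃ e : Sp N → EG G k, Continuous e ∧ ∀ t ∈ H, ∀ c : ℂ, c ^ p = 1 → (∀ g, c * ψ (t * g) = ψ g) →
      ∀ u v : Sp N, v.1 = c • u.1 → e v = t • e u := by
  classical
  obtain ⟨ι⟩ : Nonempty (Fin N × Bool ↪ Fin (k + 1)) :=
    Function.Embedding.nonempty_of_card_le (by simpa [mul_comm] using hN)
  obtain ⟨ω, hω⟩ := IsAlgClosed.exists_pow_nat_eq Complex.I (Nat.pos_of_ne_zero hp)
  let z : (Fin N → ℂ) → Fin (k + 1) → ℂ := fun u l =>
    ∑ q, if ι q = l then (if q.2 then ω else 1) * u q.1 else 0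
  have z1 : ∀ u q, z u (ι q) = (if q.2 then ω else 1) * u q.1 := fun u q => by
    simp only [z, ι.injective.eq_iff, Finset.sum_ite_eq', Finset.mem_univ, if_true]
  have z2 : ∀ (c : ℂ) u l, z (c • u) l = c * z u l := fun c u l => by
    simp only [z, Finset.mul_sum]
    refine Finset.sum_congr rfl fun q _ => ?_
    split_ifs <;> simp [mul_left_comm]
  have z3 : ∀ l, Continuous fun u : Sp N => z u.1 l := fun l =>
    continuous_finsetSum _ fun q _ => by
      by_cases h : ι q = l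
      · simp only [if_pos h]
        exact continuous_const.mul ((continuous_apply q.1).comp continuous_subtype_val)
      · simp only [if_neg h]
        exact continuous_const
  let f : ℂ → G → ℝ := fun x g => if g ∈ H then
    ∏ h, if h ∈ H ∧ h ≠ g then max ((x * ψ g).re - (x * ψ h).re) 0 else 1 else 0
  have f0 : ∀ x g, 0 ≤ f x g := fun x g => by
    simp only [f]
    split_ifs
    · refine Finset.prod_nonneg fun h _ => ?_
      split_ifs
      exacts [le_max_right _ _, zero_le_one]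
    · exact le_rfl
  have f1 : ∀ g, Continuous fun x => f x g := fun g => by
    simp only [f]
    split_ifs
    · refine continuous_finsetProd _ fun h _ => ?_
      split_ifs
      exacts [by fun_prop, continuous_const]
    · exact continuous_const
  have f2 : ∀ x g, f x g ≠ 0 ↔ g ∈ H ∧ ∀ h ∈ H, h ≠ g → (x * ψ h).re < (x * ψ g).re := fun x g => by
    by_cases hg : g ∈ H
    · simp only [f, hg, if_true, true_and, Finset.prod_ne_zero_iff, Finset.mem_univ, true_imp_iff]
      refine forall_congr' fun h => ?_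
      by_cases hh : h ∈ H ∧ h ≠ g
      · rw [if_pos hh, Ne, max_eq_right_iff, not_le, sub_pos]
        exact ⟨fun a _ _ => a, fun a => a hh.1 hh.2⟩
      · rw [if_neg hh]
        exact ⟨fun _ a b => (hh ⟨a, b⟩).elim, fun _ => one_ne_zero⟩
    · simp [f, hg]
  have f3 : ∀ x : ℂ, (x ^ p).im ≠ 0 → ∃ g, f x g ≠ 0 := fun x hx => by
    obtain ⟨g, hg⟩ := Finite.exists_max fun g : H => (x * ψ g).re
    exact ⟨g, (f2 _ _).2 ⟨g.2, fun h hh hn => (hg ⟨h, hh⟩).lt_of_ne fun e =>
      hx (tie hp (h1 _) (h1 _) (fun e' => hn (h2 _ hh _ g.2 e')) e)⟩⟩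
  have f4 : ∀ t ∈ H, ∀ c : ℂ, (∀ g, c * ψ (t * g) = ψ g) → ∀ x g, f (c * x) (t * g) = f x g :=
    fun t ht c hc x g => by
      have e : ∀ g, c * x * ψ (t * g) = x * ψ g := fun g => by rw [← hc g]; ring
      simp only [f, H.mul_mem_cancel_left ht]
      rw [← Equiv.prod_comp (Equiv.mulLeft t)]
      simp only [Equiv.coe_mulLeft, H.mul_mem_cancel_left ht, e, Ne, mul_right_inj]
  let S : Sp N → ℝ := fun u => ∑ x : Fin (k + 1) × G, f (z u.1 x.1) x.2
  have hS : ∀ u, 0 < S u := fun u => by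
    obtain ⟨i, hi⟩ := Function.ne_iff.1 (ne_zero_of_mem_unit_sphere u)
    obtain ⟨b, hb⟩ : ∃ b, (z u.1 (ι (i, b)) ^ p).im ≠ 0 := by
      by_contra hc
      have a1 := not_not.1 fun e => hc ⟨true, e⟩
      have a2 := not_not.1 fun e => hc ⟨false, e⟩
      simp only [z1, if_true, mul_pow, hω, Complex.I_mul_im, Bool.false_eq_true, if_false,
        one_mul] at a1 a2
      exact pow_ne_zero p hi (Complex.ext a1 a2)
    obtain ⟨g, hg⟩ := f3 _ hb
    exact Finset.sum_pos' (fun _ _ => f0 _ _)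
      ⟨(ι (i, b), g), Finset.mem_univ _, (f0 _ _).lt_of_ne' hg⟩
  have wc : ∀ x : Fin (k + 1) × G, Continuous fun u : Sp N => f (z u.1 x.1) x.2 := fun x =>
    (f1 _).comp (z3 _)
  refine ⟨fun u => ⟨fun x => f (z u.1 x.1) x.2 / S u, ⟨fun x => div_nonneg (f0 _ _) (hS u).le, ?_⟩,
    fun i g h hg hh => ?_⟩, Continuous.subtype_mk (continuous_pi fun x => (wc x).div
      (continuous_finsetSum _ fun x _ => wc x) fun u => (hS u).ne') _, fun t ht c _ hc u v e => ?_⟩
  · rw [← Finset.sum_div, div_self (hS u).ne']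
  · have a := (f2 _ _).1 (div_ne_zero_iff.1 hg).1
    have b := (f2 _ _).1 (div_ne_zero_iff.1 hh).1
    by_contra hn
    exact lt_asymm (a.2 h b.1 (Ne.symm hn)) (b.2 g a.1 hn)
  · have a : ∀ l g, f (z v.1 l) g = f (z u.1 l) (t⁻¹ * g) := fun l g => by
      rw [e, z2, ← f4 t ht c hc _ (t⁻¹ * g), mul_inv_cancel_left]
    have b : S v = S u := by
      simp only [S, a]
      exact Equiv.sum_comp ((Equiv.refl _).prodCongr (Equiv.mulLeft t⁻¹))
        fun x : Fin (k + 1) × G => f (z u.1 x.1) x.2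
    refine Subtype.ext (funext fun ⟨l, g⟩ => ?_)
    change f (z v.1 l) g / S v = f (z u.1 l) (t⁻¹ * g) / S u
    rw [a, b]

theorem sTC : PP.S_TC := by
  classical
  intro p hp G _ _ hm r i₀ N k n m hN hn ⟨U, hU, hc, hs⟩
  replace hm := hm.symm
  have := Fact.mk hp
  have : NeZero p := ⟨hp.ne_zero⟩
  obtain ⟨τ, ho⟩ := exists_prime_orderOf_dvd_card (G := G) p (hm ▸ Nat.minFac_dvd _)
  have hζ := Complex.isPrimitiveRoot_exp p hp.ne_zero
  generalize Complex.exp _ = ζ at hζ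
  have z0 : ζ ≠ 0 := hζ.ne_zero hp.ne_zero
  obtain ⟨ψ, p0, p1⟩ := exists_sign hp hm ho hζ
  have p2 : ∀ y, ψ y ≠ 0 := fun y e => by
    have := p0 y
    rw [e, zero_pow hp.ne_zero] at this
    exact zero_ne_one this
  have p3 : ∀ (a : ℤ) y, ψ (τ ^ a * y) = ζ ^ a * ψ y := fun a y => by simpa using p1 a 0 y
  obtain ⟨e, ec, eo⟩ := exists_map hp.ne_zero (Subgroup.zpowers τ) (fun y => (ψ y)⁻¹)
    (fun y => by rw [inv_pow, p0, inv_one]) (by
      rintro _ ⟨a, rfl⟩ _ ⟨b, rfl⟩ h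
      have h' : ψ (τ ^ a) = ψ (τ ^ b) := inv_injective h
      rw [← mul_one (τ ^ a), ← mul_one (τ ^ b), p3, p3, mul_left_inj' (p2 1), ← div_eq_one_iff_eq
        (zpow_ne_zero _ z0), ← zpow_sub₀ z0, hζ.zpow_eq_one_iff_dvd, ← ho,
        orderOf_dvd_iff_zpow_eq_one, zpow_sub, mul_inv_eq_one] at h'
      exact h') hN
  choose s hs using hs
  choose φ f1 f2 using fun j => lift_phi i₀ (hU j) (s j) (hs j)
  obtain ⟨ρ, hρ⟩ := PartitionOfUnity.exists_isSubordinate isClosed_univ U hU hc.ge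
  let g : Fin (n + 1) → Fin r → (Fin r → EG G k) → ℂ := fun j i x => ρ j (prj x) * ψ (φ j x i)
  have gc : ∀ j i, Continuous (g j i) := fun j i => continuous_iff_continuousAt.2 fun x => by
    have c0 : Continuous fun x : Fin r → EG G k => (ρ j (prj x) : ℂ) :=
      Complex.continuous_ofReal.comp ((ρ j).continuous.comp prj_cont)
    by_cases hx : prj x ∈ U j
    · refine (c0.continuousAt.mul (continuousAt_const (y := ψ (φ j x i)))).congr ?_
      filter_upwards [(f1 j (φ j x)).mem_nhds ⟨hx, rfl⟩] with y hy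
      simp only [g, hy.2, Pi.mul_apply]
    · refine (continuousAt_const (y := (0 : ℂ))).congr ?_
      filter_upwards [((isClosed_tsupport (ρ j)).isOpen_compl.preimage prj_cont).mem_nhds
        fun h => hx (hρ j h)] with y hy
      simp only [g, image_eq_zero_of_notMem_tsupport hy, zero_mul, Complex.ofReal_zero]
  have go : ∀ j i (a : Fin r → ℤ) x, g j i ((fun i => τ ^ a i) • x) =
      ζ ^ a i * (ζ ^ a i₀)⁻¹ * g j i x := fun j i a x => by
    by_cases hx : prj x ∈ U j
    · simp only [g, prj_smul, f2 j _ x hx, H44.tw, ← zpow_neg, p1, zpow_add₀ z0]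
      ring
    · simp only [g, prj_smul, image_eq_zero_of_notMem_tsupport fun h => hx (hρ j h), zero_mul,
        mul_zero, Complex.ofReal_zero]
  obtain ⟨σ, hσ⟩ : ∃ σ : (Σ i, Fin (m i)) × Bool → Fin (n + 1), Function.Surjective σ := by
    obtain ⟨ι⟩ : Nonempty (Fin (n + 1) ↪ (Σ i, Fin (m i)) × Bool) :=
      Function.Embedding.nonempty_of_card_le (by simpa [mul_comm] using hn)
    exact ⟨_, Function.invFun_surjective ι.injective⟩
  let E : (Fin r → Sp N) → Fin r → EG G k := fun u i => e (u i)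
  have Ec : Continuous E := continuous_pi fun i => ec.comp (continuous_apply i)
  refine ⟨fun i c => ⟨fun u => g (σ (⟨i, c⟩, true)) i (E u) +
    g (σ (⟨i, c⟩, false)) i (E u) * Complex.I,
    ((gc _ _).comp Ec).add (((gc _ _).comp Ec).mul continuous_const)⟩,
    fun i c ε u v h1 h2 => ?_, fun u => ?_⟩
  · choose a _ ha using fun i => hζ.eq_pow_of_pow_eq_one (h1 i)
    have Eo : E v = (fun i => τ ^ (a i : ℤ)) • E u := funext fun i =>
      eo _ ⟨_, rfl⟩ _ (h1 i) (fun y => by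
        rw [p3, zpow_natCast, ha, mul_inv, mul_inv_cancel_left₀ (ha i ▸ pow_ne_zero _ z0)])
        _ _ (h2 i)
    have h3 : ε i₀ ≠ 0 := ha i₀ ▸ pow_ne_zero _ z0
    rw [ContinuousMap.coe_mk, Eo, go, go, zpow_natCast, zpow_natCast, ha, ha]
    field_simp
  · obtain ⟨j, hj⟩ := ρ.exists_pos (mem_univ (prj (E u)))
    obtain ⟨⟨⟨i, c⟩, b⟩, rfl⟩ := hσ j
    refine ⟨i, c, fun h => ?_⟩
    have key : ∀ (s t : ℝ) (α β : ℂ), 0 ≤ s → 0 ≤ t → α ^ p = 1 → β ^ p = 1 →
        s * α + t * β * Complex.I = 0 → s = 0 ∧ t = 0 := fun s t α β s0 t0 ha hb h => by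
      have h1 : s * α = t * β * -Complex.I := by linear_combination h
      have h2 := congrArg norm h1
      simp only [norm_mul, Complex.norm_eq_one_of_pow_eq_one ha hp.ne_zero, norm_neg,
        Complex.norm_eq_one_of_pow_eq_one hb hp.ne_zero, Complex.norm_I, mul_one,
        Complex.norm_of_nonneg s0, Complex.norm_of_nonneg t0] at h2
      subst h2
      rw [and_self]
      by_contra hs
      rw [mul_assoc] at h1
      have h3 := congrArg (· ^ p) (mul_left_cancel₀ (Complex.ofReal_ne_zero.2 hs) h1)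
      simp only [mul_pow, ha, hb, one_mul] at h3
      rcases (Nat.dvd_prime hp).1 (Complex.isPrimitiveRoot_neg_I.dvd_of_pow_eq_one p h3.symm) with
        h4 | h4
      · omega
      · exact absurd (h4 ▸ hp) (by decide)
    have := key _ _ _ _ (ρ.nonneg _ _) (ρ.nonneg _ _) (p0 _) (p0 _) h
    cases b
    exacts [hj.ne' this.2, hj.ne' this.1]

end Pool.Agent.MP_826def_gt.PN
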