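import Pool.Agent.MP_826def_gt.BN.Tower
import Pool.Agent.MP_826def_gt.PP.Alg

/-! The tower of sphere bundles of tensor powers over a product of projective spaces. -/

namespace Pool.Agent.MP_826def_gt.PN

open Set Topology Pool.Agent.MP_826def_gt.MU Pool.Agent.MP_826def_gt.BN

noncomputable section

theorem rk_one {W : FD} {q : W →L[ℂ] W} (h : rk q = 1) {a w : W} (ha : q a = a) (h0 : a ≠ 0)
    (hw : q w = w) : ∃ c : ℂ, c • a = w := by
  obtain ⟨c, hc⟩ := (finrank_eq_one_iff_of_nonzero' (K := ℂ)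
    (⟨a, a, ha⟩ : LinearMap.range (q : W →ₗ[ℂ] W)) fun e => h0 (congrArg Subtype.val e)).1 h
    ⟨w, w, hw⟩
  exact ⟨c, congrArg Subtype.val hc⟩

theorem norm_of_smul {N : ℕ} {u v : Sp N} {c : ℂ} (e : v.1 = c • u.1) : ‖c‖ = 1 := by
  have := sp_norm v
  rwa [e, norm_smul, sp_norm, mul_one] at this

/-- The lines through a tuple of unit vectors. -/
def lns {r N : ℕ} : C(Fin r → Sp N, Bs r N) :=
  ⟨fun u i => ln (u i), continuous_pi fun i => ln_cont.comp (continuous_apply i)⟩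

/-- Line bundles with unit frames of weight `p`. -/
structure Dat (p : ℕ) {r : ℕ} (N : ℕ) (i₀ : Fin r) : Type 1 where
  P : ℕ → Bun (Bs r N)
  T : ∀ k, C(Fin r → Sp N, (P k).W)
  rk : ∀ k, (P k).Rk 1
  mem : ∀ k u, (P k).p (lns u) (T k u) = T k u ∧ ‖T k u‖ = 1
  hom : ∀ k u v (c : ℂ), lns u = lns v → (v (ix i₀ k)).1 = c • (u (ix i₀ k)).1 →
    T k v = c ^ p • T k u

variable {p r N : ℕ} {i₀ : Fin r} (D : Dat p N i₀)

theorem Dat.ne (k : ℕ) (u : Fin r → Sp N) : D.T k u ≠ 0 := fun e => by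
  have := (D.mem k u).2
  rw [e, norm_zero] at this
  exact zero_ne_one this

/-- The map from the product of spheres to the levels of the tower. -/
def Ph : ∀ k : ℕ, {Φ : C(Fin r → Sp N, (tow D.P k).T) // ∀ u, (tow D.P k).p (Φ u) = lns u}
  | 0 => ⟨lns, fun _ => rfl⟩
  | k + 1 => ⟨⟨fun u => (⟨((Ph k).1 u, D.T k u), by
        show (D.P k).p ((tow D.P k).p ((Ph k).1 u)) _ = _
        rw [(Ph k).2]
        exact (D.mem k u).1, (D.mem k u).2⟩ : Sph ((D.P k).pull (tow D.P k).p)),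
      ((Ph k).1.continuous.prodMk (D.T k).continuous).subtype_mk _⟩, (Ph k).2⟩

theorem Ph_inj (u v : Fin r → Sp N) : ∀ k : ℕ, (Ph D k).1 u = (Ph D k).1 v →
    ∀ j < k, D.T j u = D.T j v
  | 0, _, _, hi => absurd hi (Nat.not_lt_zero _)
  | k + 1, e, j, hj => by
    have e' := congrArg (fun z : Sph ((D.P k).pull (tow D.P k).p) => z.1) e
    rcases Nat.lt_succ_iff_lt_or_eq.1 hj with h | rfl
    · exact Ph_inj u v k (congrArg Prod.fst e') j h
    · exact congrArg Prod.snd e'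

theorem Ph_congr (u v : Fin r → Sp N) (h : lns u = lns v) : ∀ k : ℕ, k ≤ r →
    (∀ i : Fin r, (i : ℕ) < k → u i = v i) → (Ph D k).1 u = (Ph D k).1 v
  | 0, _, _ => h
  | k + 1, hk, e => by
    refine Subtype.ext (Prod.ext (Ph_congr u v h k (by omega) fun i hi => e i (by omega)) ?_)
    show D.T k u = D.T k v
    rw [D.hom k u v 1 h, one_pow, one_smul]
    rw [e (ix i₀ k) (by rw [ix, dif_pos (show k < r by omega)]; exact Nat.lt_succ_self k), one_smul]

theorem Ph_surj (hp : p ≠ 0) : ∀ k : ℕ, k ≤ r → Function.Surjective (Ph D k).1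
  | 0, _ => fun q : Bs r N => by
    choose u h1 _ h2 using fun i => (q i).2
    exact ⟨fun i => ⟨u i, by simpa using h1 i⟩, funext fun i => Subtype.ext (h2 i)⟩
  | k + 1, hk => fun z : Sph ((D.P k).pull (tow D.P k).p) => by
    obtain ⟨⟨y, w⟩, h1, h2⟩ := z
    obtain ⟨u, rfl⟩ := Ph_surj hp k (by omega) y
    have h3 : (D.P k).p ((tow D.P k).p ((Ph D k).1 u)) w = w := h1
    rw [(Ph D k).2] at h3
    obtain ⟨c, hc⟩ := rk_one (D.rk k _) (D.mem k u).1 (D.ne k u) h3
    have h4 : ‖w‖ = 1 := h2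
    rw [← hc, norm_smul, (D.mem k u).2, mul_one] at h4
    obtain ⟨d, rfl⟩ := IsAlgClosed.exists_pow_nat_eq c (Nat.pos_of_ne_zero hp)
    have h5 : ‖d‖ = 1 := by
      rwa [norm_pow, pow_eq_one_iff_of_nonneg (norm_nonneg d) hp] at h4
    let v : Sp N := ⟨d • (u (ix i₀ k)).1, by simp [norm_smul, h5]⟩
    have h6 : lns u = lns (Function.update u (ix i₀ k) v) := funext fun i => by
      show ln _ = ln _
      rcases eq_or_ne i (ix i₀ k) with rfl | h
      · rw [Function.update_self]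
        exact Subtype.ext (pj_smul _ h5).symm
      · rw [Function.update_of_ne h]
    refine ⟨Function.update u (ix i₀ k) v, Subtype.ext (Prod.ext (Ph_congr D _ _ h6.symm k
      (by omega) fun i hi => Function.update_of_ne (fun e => ?_) _ _) ?_)⟩
    · rw [e, ix, dif_pos (show k < r by omega)] at hi
      exact lt_irrefl k hi
    · exact (D.hom k u _ d h6 (by rw [Function.update_self])).trans hc

theorem Ph_fib {u v : Fin r → Sp N} (e : (Ph D r).1 u = (Ph D r).1 v) :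
    ∃ c : Fin r → ℂ, (∀ i, c i ^ p = 1) ∧ ∀ i, (v i).1 = c i • (u i).1 := by
  have h0 : lns u = lns v := by rw [← (Ph D r).2, e, (Ph D r).2]
  have h : ∀ i, ∃ c : ℂ, c ^ p = 1 ∧ (v i).1 = c • (u i).1 := fun i => by
    have h1 : pj (u i).1 = pj (v i).1 := congrArg Subtype.val (congrFun h0 i)
    have h2 := mv_pj_self (sp_ne (v i))
    rw [← h1, mv_pj] at h2
    refine ⟨_, ?_, h2.symm⟩
    have h3 := D.hom i u v _ h0 (by rw [ix_coe]; exact h2.symm)
    rw [← Ph_inj D u v r e i i.2] at h3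
    exact smul_left_injective ℂ (D.ne i u) (h3.symm.trans (one_smul ℂ _).symm)
  choose c h1 h2 using h
  exact ⟨c, h1, h2⟩

/-- The tautological line bundles on the top level. -/
abbrev Lt (i : Fin r) : Bun (tow D.P r).T := ((taut N N).pull (ev i)).pull (tow D.P r).p

theorem sections (hp : p ≠ 0) {m : Fin r → ℕ} (hS : PP.Sec p r i₀ N m) :
    ∃ σ : ∀ a : (i : Fin r) × Fin (m i), C(_, ((Lt D a.1).hom (Lt D i₀)).W),
      (∀ a x, ((Lt D a.1).hom (Lt D i₀)).p x (σ a x) = σ a x) ∧ ∀ x, ∃ a, σ a x ≠ 0 := by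
  obtain ⟨F, hF, hZ⟩ := hS
  have hq : IsQuotientMap (Ph D r).1 :=
    (Ph D r).1.continuous.isClosedMap.isQuotientMap (Ph D r).1.continuous (Ph_surj D hp r le_rfl)
  let G : ((i : Fin r) × Fin (m i)) → C(Fin r → Sp N, (Fin N → ℂ) →L[ℂ] Fin N → ℂ) := fun a =>
    ⟨fun u => mv fun k l => F a.1 a.2 u * ((u i₀).1 k * (starRingEnd ℂ) ((u a.1).1 l)),
      mv_cont.comp (continuous_pi fun k => continuous_pi fun l => (F a.1 a.2).continuous.mul
        ((co_cont _ k).mul (Complex.continuous_conj.comp (co_cont _ l))))⟩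
  have hG : ∀ a, Function.FactorsThrough (G a) (Ph D r).1 := fun a u v e => by
    obtain ⟨c, h1, h2⟩ := Ph_fib D e
    refine congrArg mv (funext fun k => funext fun l => ?_)
    have h3 : c a.1 * (starRingEnd ℂ) (c a.1) = 1 := by
      rw [Complex.mul_conj, Complex.normSq_eq_norm_sq, norm_of_smul (h2 a.1)]
      simp
    rw [h2 i₀, h2 a.1, Pi.smul_apply, Pi.smul_apply, smul_eq_mul, smul_eq_mul, map_mul]
    linear_combination
      (-((u i₀).1 k * (starRingEnd ℂ) (c a.1) * (starRingEnd ℂ) ((u a.1).1 l))) *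
        hF a.1 a.2 c u v h1 h2 -
      F a.1 a.2 u * (u i₀).1 k * (starRingEnd ℂ) ((u a.1).1 l) * h3
  have hA : ∀ a u y, G a u y =
      (F a.1 a.2 u * ∑ l, (starRingEnd ℂ) ((u a.1).1 l) * y l) • (u i₀).1 := fun a u y => by
    funext k
    show mv _ y k = _
    rw [mv_apply, Pi.smul_apply, smul_eq_mul, Finset.mul_sum, Finset.sum_mul]
    exact Finset.sum_congr rfl fun l _ => by ring
  have hN : ∀ b : Fin N → ℂ, ∑ j, (starRingEnd ℂ) (b j) * b j =
      ((∑ k, Complex.normSq (b k) : ℝ) : ℂ) := fun b => by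
    rw [Complex.ofReal_sum]
    exact Finset.sum_congr rfl fun j _ => Complex.normSq_eq_conj_mul_self.symm
  refine ⟨fun a => hq.lift (G a) (hG a), fun a x => ?_, fun x => ?_⟩ <;>
    obtain ⟨u, rfl⟩ := hq.surjective x
  · have e : hq.lift (G a) (hG a) ((Ph D r).1 u) = G a u :=
      congrArg (fun φ : C(_, _) => φ u) (hq.lift_comp (G a) (hG a))
    show mv ((tow D.P r).p ((Ph D r).1 u) i₀).1 ∘L hq.lift (G a) (hG a) ((Ph D r).1 u) ∘L
      mv ((tow D.P r).p ((Ph D r).1 u) a.1).1 = hq.lift (G a) (hG a) ((Ph D r).1 u)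
    rw [e, (Ph D r).2]
    refine ContinuousLinearMap.ext fun y => ?_
    show mv (pj (u i₀).1) (G a u (mv (pj (u a.1).1) y)) = G a u y
    rw [mv_pj _ y, map_smul, map_smul, hA, hA, map_smul, mv_pj_self (sp_ne _), smul_smul, hN]
    congr 1
    have := Complex.ofReal_ne_zero.2 (nsq_pos (sp_ne (u a.1))).ne'
    field_simp
  · obtain ⟨i, c, h⟩ := hZ u
    refine ⟨⟨i, c⟩, fun e => ?_⟩
    have e' : G ⟨i, c⟩ u = 0 :=
      (congrArg (fun φ : C(_, _) => φ u) (hq.lift_comp (G ⟨i, c⟩) (hG _))).symm.trans e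
    have := hA ⟨i, c⟩ u (u i).1
    rw [e', hN] at this
    exact smul_ne_zero (mul_ne_zero h (Complex.ofReal_ne_zero.2 (nsq_pos (sp_ne (u i))).ne'))
      (sp_ne (u i₀)) this.symm

end

end Pool.Agent.MP_826def_gt.PN
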